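import Mathlib

/-!
# Outer-connected domination, line graphs and middle graphs
-/

set_option autoImplicit false

namespace OuterDom

open Finset

variable {V : Type}

/-- `D` is dominating: every vertex outside `D` has a neighbour in `D`. -/
def IsDominating (H : SimpleGraph V) (D : Finset V) : Prop :=
  ∀ v, v ∉ D → ∃ u ∈ D, H.Adj v u

/-- `D` is an outer-connected dominating set: `D` is dominating and the graph induced by the
vertices outside `D` is connected (the graph without vertices counts as connected). -/
def IsOCD (H : SimpleGraph V) (D : Finset V) : Prop :=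
  IsDominating H D ∧ (H.induce {v | v ∉ D}).Preconnected

/-- the outer-connected domination number -/
noncomputable def ocdNumber (H : SimpleGraph V) : ℕ :=
  sInf {s | ∃ D : Finset V, IsOCD H D ∧ D.card = s}

/-- The middle graph `M(G)`: vertex set `V ∪ E`; two edges are adjacent when they share an end
point, a vertex and an edge when the vertex is an end point of the edge, two vertices never. -/
def middleGraph (G : SimpleGraph V) : SimpleGraph (V ⊕ G.edgeSet) where
  Adj x y := match x, y with
    | Sum.inl _, Sum.inl _ => False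
    | Sum.inl v, Sum.inr e => v ∈ (e : Sym2 V)
    | Sum.inr e, Sum.inl v => v ∈ (e : Sym2 V)
    | Sum.inr e, Sum.inr f => e ≠ f ∧ ∃ v, v ∈ (e : Sym2 V) ∧ v ∈ (f : Sym2 V)
  symm := ⟨by
    rintro (a | e) (b | f) h
    · exact h
    · exact h
    · exact h
    · exact ⟨h.1.symm, h.2.imp fun _ hv => ⟨hv.2, hv.1⟩⟩⟩
  loopless := ⟨by
    rintro (a | e) h
    · exact h
    · exact h.1 rfl⟩

/-- If an induced subgraph is connected and a predicate separates two of its vertices, then some
edge of it is separated by the predicate. -/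
theorem crossing {H : SimpleGraph V} {S : Set V} (hc : (H.induce S).Preconnected) {a b : V}
    (ha : a ∈ S) (hb : b ∈ S) (P : V → Prop) (pa : P a) (pb : ¬ P b) :
    ∃ x ∈ S, ∃ y ∈ S, H.Adj x y ∧ P x ∧ ¬ P y := by
  by_contra hno
  push Not at hno
  have h := hc ⟨a, ha⟩ ⟨b, hb⟩
  rw [SimpleGraph.reachable_iff_reflTransGen] at h
  have key : ∀ z : S, Relation.ReflTransGen (H.induce S).Adj ⟨a, ha⟩ z → P z := by
    intro z hz
    induction hz with
    | refl => exact pa
    | @tail y z _ hyz ih => exact hno y y.2 z z.2 hyz ih
  exact pb (key _ h)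

/-- A bound from below for the outer-connected domination number. -/
theorem le_ocd [Fintype V] {H : SimpleGraph V} {n : ℕ}
    (h : ∀ D : Finset V, IsOCD H D → n ≤ D.card) : n ≤ ocdNumber H := by
  have hne : {s | ∃ D : Finset V, IsOCD H D ∧ D.card = s}.Nonempty := by
    refine ⟨_, Finset.univ, ⟨fun v hv => absurd (Finset.mem_univ v) hv, ?_⟩, rfl⟩
    rintro ⟨x, hx⟩
    exact absurd (Finset.mem_univ x) hx
  obtain ⟨D, hD, hs⟩ := Nat.sInf_mem hne
  unfold ocdNumber
  rw [← hs]
  exact h D hD

theorem ocd_le {H : SimpleGraph V} {D : Finset V} (h : IsOCD H D) : ocdNumber H ≤ D.card :=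
  Nat.sInf_le ⟨D, h, rfl⟩

end OuterDom
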